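import Pool.Agent.Helper61.Tri.Goals2

/-!
# Packet REDUCTION (MP_5b3c48_co)
-/

set_option autoImplicit false

open Finset

namespace Pool.Agent.Helper33.Tri

open Pool.Agent.Helper61.Tri

noncomputable section

open scoped Classical

variable {V : Type}

theorem ep_push {G : SimpleGraph V} {p : V → Prop} {l : ℕ} {u v : {x // p x}}
    {S : Finset {x // p x}} (h : EP (G.comap (Subtype.val : {x // p x} → V)) l u v S) :
    EP G l u.1 v.1 (S.image Subtype.val) := by
  obtain ⟨c, a, ⟨h1, h2, h3, h4⟩, h5, h6, h7, h8⟩ := h
  refine ⟨fun i => (c i).1, fun i => (a i).1, ⟨fun i hi => h1 i hi, ?_, ?_, ?_⟩, ?_, ?_, ?_, ?_⟩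
  · intro i hi j hj hij
    exact h2 i hi j hj (Subtype.ext hij)
  · intro i hi j hj hij
    exact h3 i hi j hj (Subtype.ext hij)
  · intro i hi j hj hij
    exact h4 i hi j hj (Subtype.ext hij)
  · show (c 0).1 = u.1
    rw [h5]
  · show (c l).1 = v.1
    rw [h6]
  · intro i hi
    exact mem_image_of_mem _ (h7 i hi)
  · intro i hi
    exact mem_image_of_mem _ (h8 i hi)

theorem epath_push {G : SimpleGraph V} {p : V → Prop} {l : ℕ}
    (h : EPath (G.comap (Subtype.val : {x // p x} → V)) l) : EPath G l := by
  obtain ⟨u, v, S, h⟩ := h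
  exact ⟨_, _, _, ep_push h⟩

theorem ecyc_push {G : SimpleGraph V} {p : V → Prop} {k : ℕ}
    (h : ECyc (G.comap (Subtype.val : {x // p x} → V)) k) : ECyc G k := by
  obtain ⟨u, v, w, S, h, h1, h2, h3, h4⟩ := h
  refine ⟨u.1, v.1, w.1, S.image Subtype.val, ep_push h, h1, h2, h3, ?_⟩
  intro h5
  obtain ⟨x, hx, hxw⟩ := mem_image.1 h5
  exact h4 (Subtype.ext hxw ▸ hx)

theorem has_push {G : SimpleGraph V} {p : V → Prop} {κ : Kind} {s : ℕ}
    (h : Has κ s (G.comap (Subtype.val : {x // p x} → V))) : Has κ s G := by
  cases κ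
  · exact epath_push h
  · exact ecyc_push h
  · exact ecyc_push h
  · exact epath_push h

variable [Fintype V]

theorem tr_even (G : SimpleGraph V) (v : V) : Even (tr G v).card := by
  rw [← ZMod.natCast_eq_zero_iff_even, Finset.cast_card]
  refine Finset.sum_involution (fun p _ => (p.2, p.1)) ?_ ?_ ?_ ?_
  · intro p _
    decide
  · intro p hp _ h
    simp only [tr, mem_filter, mem_univ, true_and] at hp
    have h1 : p.2 = p.1 := congrArg Prod.fst h
    have h2 := hp.2.2
    rw [h1] at h2
    exact G.loopless.irrefl _ h2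
  · intro p hp
    simp only [tr, mem_filter, mem_univ, true_and] at hp ⊢
    exact ⟨hp.2.1, hp.1, hp.2.2.symm⟩
  · intro p _
    rfl

theorem ot_le (G : SimpleGraph V) (v : V) :
    (ot G).card ≤ (ot (G.comap (Subtype.val : {x // x ≠ v} → V))).card + 3 * (tr G v).card := by
  have hsub : ot G ⊆ ((ot (G.comap (Subtype.val : {x // x ≠ v} → V))).image
      (fun t => (t.1.1, t.2.1.1, t.2.2.1)) ∪ (tr G v).image (fun p => (v, p.1, p.2))) ∪
      ((tr G v).image (fun p => (p.1, v, p.2)) ∪ (tr G v).image (fun p => (p.1, p.2, v))) := by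
    rintro ⟨a, b, c⟩ h
    simp only [ot, mem_filter, mem_univ, true_and] at h
    obtain ⟨hab, hac, hbc⟩ := h
    simp only [mem_union, mem_image]
    by_cases ha : a = v
    · subst ha
      left; right
      exact ⟨(b, c), by simp [tr, hab, hac, hbc], rfl⟩
    · by_cases hb : b = v
      · subst hb
        right; left
        exact ⟨(a, c), by simp [tr, hab.symm, hac, hbc], rfl⟩
      · by_cases hc : c = v
        · subst hc
          right; right
          exact ⟨(a, b), by simp [tr, hab, hac.symm, hbc.symm], rfl⟩
        · left; left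
          exact ⟨(⟨a, ha⟩, ⟨b, hb⟩, ⟨c, hc⟩), by simp [ot, hab, hac, hbc], rfl⟩
  refine (card_le_card hsub).trans ?_
  refine (card_union_le _ _).trans ?_
  have h1 := card_union_le ((ot (G.comap (Subtype.val : {x // x ≠ v} → V))).image
      (fun t => (t.1.1, t.2.1.1, t.2.2.1))) ((tr G v).image (fun p => (v, p.1, p.2)))
  have h2 := card_union_le ((tr G v).image (fun p => (p.1, v, p.2)))
    ((tr G v).image (fun p => (p.1, p.2, v)))
  have h3 : ((ot (G.comap (Subtype.val : {x // x ≠ v} → V))).image
      (fun t => (t.1.1, t.2.1.1, t.2.2.1))).card ≤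
      (ot (G.comap (Subtype.val : {x // x ≠ v} → V))).card := card_image_le
  have h4 : ((tr G v).image (fun p => (v, p.1, p.2))).card ≤ (tr G v).card := card_image_le
  have h5 : ((tr G v).image (fun p => (p.1, v, p.2))).card ≤ (tr G v).card := card_image_le
  have h6 : ((tr G v).image (fun p => (p.1, p.2, v))).card ≤ (tr G v).card := card_image_le
  omega

theorem ot_le_cube (G : SimpleGraph V) : (ot G).card ≤ Fintype.card V ^ 3 := by
  refine (card_le_univ _).trans ?_
  rw [Fintype.card_prod, Fintype.card_prod]
  exact le_of_eq (by ring)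

/-- Deleting a vertex in few triangles. -/
theorem del (G : SimpleGraph V) (v : V) (d : ℕ) (h : (tr G v).card < 2 * d) :
    (ot G).card + 6 ≤ (ot (G.comap (Subtype.val : {x // x ≠ v} → V))).card + 6 * d := by
  have h1 := ot_le G v
  obtain ⟨r, hr⟩ := tr_even G v
  omega

theorem reduction : EPTools → Reduction := by
  rintro - s κ f Pr hf ⟨n1, hn1⟩
  -- the main induction
  have main : ∀ n, n1 ≤ n → ∀ (V : Type) [Fintype V], Fintype.card V = n →
      ∀ G : SimpleGraph V, ¬ Has κ s G →
      (ot G).card ≤ 6 * f n ∨ (ot G).card + 6 * (n - n1) ≤ 6 * f n + 6 * n1 ^ 3 := by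
    intro n hn
    induction n, hn using Nat.le_induction with
    | base =>
      intro V _ hV G _
      right
      have := ot_le_cube G
      rw [hV] at this
      omega
    | succ n hn ih =>
      intro V _ hV G hG
      by_cases hB : 6 * f (n + 1) ≤ (ot G).card
      swap
      · left; omega
      by_cases hall : ∀ v, 2 * (f (n + 1) - f n) ≤ (tr G v).card
      · left
        have := hn1 V (by omega) G hG (by rw [hV]; exact hB)
          (by rw [hV]; exact hall)
        rw [hV] at this
        exact this.1.le
      · push Not at hall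
        obtain ⟨v, hv⟩ := hall
        have h1 := del G v _ hv
        have hcard : Fintype.card {x // x ≠ v} = n := by
          have : Fintype.card {x // x ≠ v} = Fintype.card V - 1 := by
            rw [Fintype.card_subtype_compl]
            simp
          omega
        have h2 := ih {x // x ≠ v} hcard (G.comap Subtype.val) (fun h => hG (has_push h))
        have h3 : f n ≤ f (n + 1) := hf (Nat.le_succ n)
        rcases h2 with h2 | h2
        · left; omega
        · right; omega
  refine ⟨n1 + n1 ^ 3 + 1, ?_⟩
  intro V _ hV G hG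
  obtain ⟨n, hn⟩ : ∃ n, Fintype.card V = n + 1 := ⟨Fintype.card V - 1, by omega⟩
  rw [hn] at hV ⊢
  have hm := main (n + 1) (by omega) V hn G hG
  constructor
  · rcases hm with hm | hm
    · exact hm
    · omega
  · intro he
    by_cases hall : ∀ v, 2 * (f (n + 1) - f n) ≤ (tr G v).card
    · exact (hn1 V (by omega) G hG (by rw [hn]; exact he.ge) (by rw [hn]; exact hall)).2
    · exfalso
      push Not at hall
      obtain ⟨v, hv⟩ := hall
      have h1 := del G v _ hv
      have hcard : Fintype.card {x // x ≠ v} = n := by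
        have : Fintype.card {x // x ≠ v} = Fintype.card V - 1 := by
          rw [Fintype.card_subtype_compl]
          simp
        omega
      have h2 := main n (by omega) {x // x ≠ v} hcard (G.comap Subtype.val)
        (fun h => hG (has_push h))
      have h3 : f n ≤ f (n + 1) := hf (Nat.le_succ n)
      rcases h2 with h2 | h2 <;> omega

end

end Pool.Agent.Helper33.Tri
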